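import Mathlib

/-!
# MP_50fe75_gt, Q1 : every Scott completion of a `T0` space is its D-completion

The order on every space is the specialization order `x ⊑ y ↔ x ∈ closure {y}`.
We show that if `i : X → Y` is a Scott completion of a `T0` space `X`, then `i` is a topological
embedding of `X` onto a d-dense subspace of the monotone convergence space `Y`, i.e. a
D-completion of `X`.

Idea of the proof.  Every monotone convergence space `C` embeds, as an upper set, into a Scott
space `Hat C`: the points of `Hat C` are the pairs `(F, e)` with `e : C` and `F` a set of open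
neighbourhoods of `e`; `(F, e) ≤ (G, d)` iff either `e = d` and `F ⊆ G`, or `G` is the set of all
open neighbourhoods of `d` and `F ⊆ G`.  The embedding sends `x` to `(N x, x)`.
Applying the universal property to `C = ` a d-closed subset of `Y` containing the image of `X`
forces `C = Y`.
-/

set_option autoImplicit false

open Set Topology

universe u

namespace Pool.Agent.Results.MP_50fe75_gt.ScottCompletionIsD

section Definitions

variable {X : Type u} [TopologicalSpace X]

/-- The specialization order: `x ⊑ y` iff `x` lies in the closure of `{y}`. -/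
def SpecLE (x y : X) : Prop := x ∈ closure ({y} : Set X)

/-- `D` is a directed (in particular nonempty) subset for the specialization order. -/
def SpecDirected (D : Set X) : Prop :=
  D.Nonempty ∧ ∀ a ∈ D, ∀ b ∈ D, ∃ c ∈ D, SpecLE a c ∧ SpecLE b c

/-- `s` is a supremum of `D` for the specialization order. -/
def IsSpecSup (D : Set X) (s : X) : Prop :=
  (∀ d ∈ D, SpecLE d s) ∧ ∀ b : X, (∀ d ∈ D, SpecLE d b) → SpecLE s b

/-- The Scott open sets for the specialization order: upper sets `U` such that every directed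
set whose supremum exists and lies in `U` meets `U`. -/
def ScottOpen (U : Set X) : Prop :=
  (∀ x y : X, SpecLE x y → x ∈ U → y ∈ U) ∧
    ∀ (D : Set X) (s : X), SpecDirected D → IsSpecSup D s → s ∈ U → (D ∩ U).Nonempty

/-- `A` is d-closed: it contains all existing suprema of its directed subsets. -/
def DClosed (A : Set X) : Prop :=
  ∀ (D : Set X) (s : X), D ⊆ A → SpecDirected D → IsSpecSup D s → s ∈ A

/-- `A` is d-dense: the only d-closed set containing `A` is the whole space. -/
def DDense (A : Set X) : Prop := ∀ C : Set X, DClosed C → A ⊆ C → C = univ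

end Definitions

/-- A Scott space: a `T0` space whose specialization order is a dcpo and whose open sets are
exactly the Scott open sets of that order. -/
structure IsScottSpace (X : Type u) [TopologicalSpace X] : Prop where
  t0 : T0Space X
  dcpo : ∀ D : Set X, SpecDirected D → ∃ s : X, IsSpecSup D s
  isOpen_iff : ∀ U : Set X, IsOpen U ↔ ScottOpen U

/-- A monotone convergence space: a `T0` space whose specialization order is a dcpo and all of
whose open sets are Scott open for that order. -/
structure IsMonotoneConvergenceSpace (X : Type u) [TopologicalSpace X] : Prop where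
  t0 : T0Space X
  dcpo : ∀ D : Set X, SpecDirected D → ∃ s : X, IsSpecSup D s
  scottOpen : ∀ U : Set X, IsOpen U → ScottOpen U

/-- `j : X → Y` is a D-completion of `X`: a topological embedding into a monotone convergence
space with d-dense image. -/
structure IsDCompletion {X Y : Type u} [TopologicalSpace X] [TopologicalSpace Y]
    (j : X → Y) : Prop where
  target : IsMonotoneConvergenceSpace Y
  isEmbedding : IsEmbedding j
  dDense : DDense (range j)

/-- `i : X → Y` is a Scott completion of `X`: `Y` is a Scott space, `i` is continuous, and every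
continuous map from `X` to a Scott space factors uniquely through `i` by a continuous map. -/
structure IsScottCompletion {X Y : Type u} [TopologicalSpace X] [TopologicalSpace Y]
    (i : X → Y) : Prop where
  target : IsScottSpace Y
  continuous : Continuous i
  universal : ∀ (Z : Type u) [TopologicalSpace Z], IsScottSpace Z →
    ∀ g : X → Z, Continuous g → ∃! h : Y → Z, Continuous h ∧ h ∘ i = g

/-! ### Sanity checks for the definitions -/

/-- The specialization order above is the one of Mathlib. -/
theorem specLE_iff_specializes {X : Type u} [TopologicalSpace X] (x y : X) :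
    SpecLE x y ↔ y ⤳ x := specializes_iff_mem_closure.symm

/-- A Scott space is its own Scott completion. -/
theorem isScottCompletion_id {X : Type u} [TopologicalSpace X] (hX : IsScottSpace X) :
    IsScottCompletion (id : X → X) where
  target := hX
  continuous := continuous_id
  universal := by
    intro Z _ _ g hg
    exact ⟨g, ⟨hg, rfl⟩, fun f hf => hf.2⟩

/-! ### A dcpo with its Scott topology is a Scott space -/

theorem specLE_iff_le {P : Type u} [PartialOrder P] [TopologicalSpace P] [IsScott P univ]
    (a b : P) : SpecLE a b ↔ a ≤ b := by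
  unfold SpecLE
  rw [IsScott.closure_singleton]
  rfl

theorem isScottSpace_of_dcpo {P : Type u} [PartialOrder P] [TopologicalSpace P]
    [IsScott P univ]
    (hd : ∀ D : Set P, D.Nonempty → DirectedOn (· ≤ ·) D → ∃ s, IsLUB D s) :
    IsScottSpace P := by
  have hdir : ∀ D : Set P, SpecDirected D ↔ D.Nonempty ∧ DirectedOn (· ≤ ·) D := by
    intro D
    simp only [SpecDirected, specLE_iff_le]
    rfl
  have hsup : ∀ (D : Set P) (s : P), IsSpecSup D s ↔ IsLUB D s := by
    intro D s
    simp only [IsSpecSup, specLE_iff_le]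
    constructor
    · rintro ⟨h1, h2⟩
      exact ⟨fun d hd => h1 d hd, fun b hb => h2 b (fun d hd => hb hd)⟩
    · rintro ⟨h1, h2⟩
      exact ⟨fun d hd => h1 hd, fun b hb => h2 (fun d hd => hb d hd)⟩
  refine ⟨inferInstance, ?_, ?_⟩
  · intro D hD
    rw [hdir] at hD
    obtain ⟨s, hs⟩ := hd D hD.1 hD.2
    exact ⟨s, (hsup D s).2 hs⟩
  · intro U
    rw [IsScott.isOpen_iff_isUpperSet_and_dirSupInaccOn (D := univ)]
    simp only [ScottOpen, specLE_iff_le, hdir, hsup]
    constructor
    · rintro ⟨h1, h2⟩
      refine ⟨fun x y hxy hx => h1 hxy hx, ?_⟩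
      intro D s hD hs hsU
      exact h2 (mem_univ D) hD.1 hD.2 hs hsU
    · rintro ⟨h1, h2⟩
      refine ⟨fun x y hxy hx => h1 x y hxy hx, ?_⟩
      intro D _ hD1 hD2 s hs hsU
      exact h2 D s ⟨hD1, hD2⟩ hs hsU

/-! ### The Sierpinski space in every universe -/

/-- The two-point chain. -/
def Sier : Type u := ULift.{u} Prop

instance : PartialOrder Sier.{u} := PartialOrder.lift ULift.down ULift.down_injective

instance : TopologicalSpace Sier.{u} := scott Sier.{u} univ

instance : IsScott Sier.{u} univ := ⟨rfl⟩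

theorem isScottSpace_sier : IsScottSpace Sier.{u} := by
  refine isScottSpace_of_dcpo ?_
  intro D _ _
  refine ⟨ULift.up (∃ d ∈ D, d.down), ?_, ?_⟩
  · intro d hd h
    exact ⟨d, hd, h⟩
  · intro b hb h
    obtain ⟨d, hd, h⟩ := h
    exact hb hd h

/-- The characteristic function of a set, with values in the Sierpinski space. -/
def chi {Y : Type u} (U : Set Y) : Y → Sier.{u} := fun y => ULift.up (y ∈ U)

theorem continuous_chi {Y : Type u} [TopologicalSpace Y] {U : Set Y} (hU : IsOpen U) :
    Continuous (chi U) := by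
  rw [continuous_def]
  intro W hW
  have hup : IsUpperSet W := IsScott.isUpperSet_of_isOpen (D := univ) hW
  by_cases h0 : (ULift.up False : Sier.{u}) ∈ W
  · have : chi U ⁻¹' W = univ := by
      ext y
      simp only [mem_preimage, mem_univ, iff_true]
      refine hup ?_ h0
      intro h
      exact h.elim
    rw [this]
    exact isOpen_univ
  · by_cases h1 : (ULift.up True : Sier.{u}) ∈ W
    · have : chi U ⁻¹' W = U := by
        ext y
        simp only [mem_preimage]
        constructor
        · intro hy
          by_contra hyU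
          apply h0
          have : chi U y = ULift.up False := by
            simp [chi, hyU]
          rwa [this] at hy
        · intro hyU
          have : chi U y = ULift.up True := by
            simp [chi, hyU]
          rwa [this]
      rw [this]
      exact hU
    · have : chi U ⁻¹' W = ∅ := by
        ext y
        simp only [mem_preimage, mem_empty_iff_false, iff_false]
        intro hy
        apply h1
        refine hup ?_ hy
        intro _
        trivial
      rw [this]
      exact isOpen_empty

theorem isOpen_sier_true : IsOpen {s : Sier.{u} | s.down} := by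
  rw [isScottSpace_sier.isOpen_iff]
  simp only [ScottOpen, SpecDirected, IsSpecSup, specLE_iff_le]
  refine ⟨fun x y hxy hx => hxy hx, ?_⟩
  intro D s _ hs hsU
  by_contra hne
  rw [not_nonempty_iff_eq_empty] at hne
  have : s ≤ ULift.up False := by
    apply hs.2
    intro d hd hdt
    have : d ∈ D ∩ {s : Sier.{u} | s.down} := ⟨hd, hdt⟩
    rw [hne] at this
    exact this
  exact this hsU

/-! ### The Scott space `Hat C` -/

section HatSection

variable (C : Type u) [TopologicalSpace C]

/-- The open neighbourhoods of a point. -/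
def nb {C : Type u} [TopologicalSpace C] (x : C) : Set (Set C) := {U | IsOpen U ∧ x ∈ U}

/-- Points of `Hat C`: a point `pt` of `C` together with a set `F` of open neighbourhoods of
`pt`. -/
@[ext]
structure Hat (C : Type u) [TopologicalSpace C] : Type u where
  F : Set (Set C)
  pt : C
  sub : F ⊆ nb pt

variable {C}

theorem eq_of_nb_eq [T0Space C] {x y : C} (h : nb x = nb y) : x = y := by
  apply Inseparable.eq
  rw [inseparable_iff_forall_isOpen]
  intro s hs
  constructor
  · intro hx
    have : s ∈ nb x := ⟨hs, hx⟩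
    rw [h] at this
    exact this.2
  · intro hy
    have : s ∈ nb y := ⟨hs, hy⟩
    rw [← h] at this
    exact this.2

instance [T0Space C] : PartialOrder (Hat C) where
  le p q := (p.pt = q.pt ∧ p.F ⊆ q.F) ∨ (q.F = nb q.pt ∧ p.F ⊆ q.F)
  le_refl p := Or.inl ⟨rfl, Subset.rfl⟩
  le_trans p q r := by
    rintro (⟨h1, h2⟩ | ⟨h1, h2⟩) (⟨h3, h4⟩ | ⟨h3, h4⟩)
    · exact Or.inl ⟨h1.trans h3, h2.trans h4⟩
    · exact Or.inr ⟨h3, h2.trans h4⟩
    · refine Or.inr ⟨?_, h2.trans h4⟩
      apply Subset.antisymm r.sub
      rw [← h3, ← h1]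
      exact h4
    · exact Or.inr ⟨h3, h2.trans h4⟩
  le_antisymm p q := by
    intro h h'
    have hF : p.F = q.F := by
      apply Subset.antisymm
      · rcases h with h | h
        · exact h.2
        · exact h.2
      · rcases h' with h | h
        · exact h.2
        · exact h.2
    have hpt : p.pt = q.pt := by
      rcases h with h | h
      · exact h.1
      · rcases h' with h' | h'
        · exact h'.1.symm
        · apply eq_of_nb_eq
          rw [← h.1, ← h'.1, hF]
    exact Hat.ext hF hpt

theorem Hat.le_def [T0Space C] (p q : Hat C) :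
    p ≤ q ↔ (p.pt = q.pt ∧ p.F ⊆ q.F) ∨ (q.F = nb q.pt ∧ p.F ⊆ q.F) := Iff.rfl

theorem Hat.F_mono [T0Space C] {p q : Hat C} (h : p ≤ q) : p.F ⊆ q.F := by
  rcases h with h | h
  · exact h.2
  · exact h.2

instance [T0Space C] : TopologicalSpace (Hat C) := scott (Hat C) univ

instance [T0Space C] : IsScott (Hat C) univ := ⟨rfl⟩

/-- The embedding of `C` into `Hat C`. -/
def emb (x : C) : Hat C := ⟨nb x, x, Subset.rfl⟩

theorem emb_le_iff [T0Space C] {x : C} {p : Hat C} :
    emb x ≤ p ↔ p.F = nb p.pt ∧ nb x ⊆ nb p.pt := by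
  constructor
  · rintro (⟨h1, h2⟩ | ⟨h1, h2⟩)
    · have h1' : x = p.pt := h1
      have h2' : nb x ⊆ p.F := h2
      subst h1'
      exact ⟨Subset.antisymm p.sub h2', Subset.rfl⟩
    · have h2' : nb x ⊆ p.F := h2
      rw [h1] at h2'
      exact ⟨h1, h2'⟩
  · rintro ⟨h1, h2⟩
    refine Or.inr ⟨h1, ?_⟩
    rw [h1]
    exact h2

theorem specLE_iff_nb {x y : C} : SpecLE x y ↔ nb x ⊆ nb y := by
  unfold SpecLE
  rw [mem_closure_iff]
  constructor
  · intro h U hU
    obtain ⟨z, hz, hz'⟩ := h U hU.1 hU.2
    rw [mem_singleton_iff] at hz'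
    subst hz'
    exact ⟨hU.1, hz⟩
  · intro h U hU hx
    exact ⟨y, (h ⟨hU, hx⟩).2, rfl⟩

/-- Directed suprema in `Hat C`, when `C` is a dcpo. -/
theorem exists_isLUB_hat [T0Space C]
    (hC : ∀ D : Set C, SpecDirected D → ∃ s : C, IsSpecSup D s) (D : Set (Hat C))
    (hne : D.Nonempty) (hdir : DirectedOn (· ≤ ·) D) :
    ∃ s : Hat C, IsLUB D s ∧ ∀ U : Set C, ScottOpen U → U ∈ s.F → ∃ d ∈ D, U ∈ d.F := by
  by_cases hcof : ∀ p ∈ D, ∃ x : C, emb x ∈ D ∧ p ≤ emb x
  · -- the elements `emb x` are cofinal
    let D' : Set C := {x | emb x ∈ D}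
    have hD' : SpecDirected D' := by
      constructor
      · obtain ⟨p, hp⟩ := hne
        obtain ⟨x, hx, _⟩ := hcof p hp
        exact ⟨x, hx⟩
      · intro a ha b hb
        obtain ⟨q, hq, haq, hbq⟩ := hdir _ ha _ hb
        obtain ⟨x, hx, hqx⟩ := hcof q hq
        refine ⟨x, hx, ?_, ?_⟩
        · rw [specLE_iff_nb]
          exact (emb_le_iff.1 (haq.trans hqx)).2
        · rw [specLE_iff_nb]
          exact (emb_le_iff.1 (hbq.trans hqx)).2
    obtain ⟨s, hs1, hs2⟩ := hC D' hD'
    refine ⟨emb s, ⟨?_, ?_⟩, ?_⟩
    · intro p hp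
      obtain ⟨x, hx, hpx⟩ := hcof p hp
      refine hpx.trans ?_
      rw [emb_le_iff]
      exact ⟨rfl, specLE_iff_nb.1 (hs1 x hx)⟩
    · intro q hq
      rw [emb_le_iff]
      constructor
      · obtain ⟨x, hx⟩ := hD'.1
        exact (emb_le_iff.1 (hq hx)).1
      · rw [← specLE_iff_nb]
        apply hs2
        intro d hd
        rw [specLE_iff_nb]
        exact (emb_le_iff.1 (hq hd)).2
    · intro U hU hUs
      obtain ⟨x, hx, hxU⟩ := hU.2 D' s hD' ⟨hs1, hs2⟩ hUs.2
      exact ⟨emb x, hx, hUs.1, hxU⟩
  · push Not at hcof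
    obtain ⟨p0, hp0, hcof⟩ := hcof
    -- every element of `D` above `p0` has the same point as `p0`
    have key : ∀ q ∈ D, p0 ≤ q → q.pt = p0.pt := by
      intro q hq hpq
      rcases hpq with h | h
      · exact h.1.symm
      · exfalso
        have hqe : q = emb q.pt := Hat.ext h.1 rfl
        apply hcof q.pt
        · rw [← hqe]
          exact hq
        · rw [← hqe]
          exact Or.inr h
    let G : Set (Set C) := ⋃ q ∈ {q | q ∈ D ∧ p0 ≤ q}, q.F
    have hG : G ⊆ nb p0.pt := by
      intro U hU
      simp only [G, mem_iUnion, mem_ofPred_eq] at hU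
      obtain ⟨q, ⟨hq, hpq⟩, hUq⟩ := hU
      have := q.sub hUq
      rwa [key q hq hpq] at this
    refine ⟨⟨G, p0.pt, hG⟩, ⟨?_, ?_⟩, ?_⟩
    · intro q hq
      obtain ⟨r, hr, hqr, hpr⟩ := hdir q hq p0 hp0
      refine hqr.trans ?_
      refine Or.inl ⟨key r hr hpr, ?_⟩
      intro U hU
      simp only [G, mem_iUnion, mem_ofPred_eq]
      exact ⟨r, ⟨hr, hpr⟩, hU⟩
    · intro b hb
      have hsub : G ⊆ b.F := by
        intro U hU
        simp only [G, mem_iUnion, mem_ofPred_eq] at hU
        obtain ⟨q, ⟨hq, _⟩, hUq⟩ := hU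
        exact Hat.F_mono (hb hq) hUq
      rcases hb hp0 with h | h
      · exact Or.inl ⟨h.1, hsub⟩
      · exact Or.inr ⟨h.1, hsub⟩
    · intro U _ hU
      have hU' : U ∈ G := hU
      simp only [G, mem_iUnion, mem_ofPred_eq] at hU'
      obtain ⟨q, ⟨hq, _⟩, hUq⟩ := hU'
      exact ⟨q, hq, hUq⟩

/-- If `C` is a dcpo in its specialization order, then `Hat C` is a Scott space. -/
theorem isScottSpace_hat [T0Space C]
    (hC : ∀ D : Set C, SpecDirected D → ∃ s : C, IsSpecSup D s) : IsScottSpace (Hat C) := by
  refine isScottSpace_of_dcpo ?_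
  intro D hne hdir
  obtain ⟨s, hs, _⟩ := exists_isLUB_hat hC D hne hdir
  exact ⟨s, hs⟩

theorem continuous_emb [T0Space C]
    (hC : ∀ D : Set C, SpecDirected D → ∃ s : C, IsSpecSup D s) :
    Continuous (emb : C → Hat C) := by
  rw [continuous_def]
  intro W hW
  rw [(isScottSpace_hat hC).isOpen_iff] at hW
  obtain ⟨hup, hdir⟩ := hW
  rw [isOpen_iff_forall_mem_open]
  intro x hx
  -- the directed family of principal filters
  let pr : {U : Set C // IsOpen U ∧ x ∈ U} → Hat C := fun U =>
    ⟨{V | IsOpen V ∧ U.1 ⊆ V}, x, fun V hV => ⟨hV.1, hV.2 U.2.2⟩⟩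
  have h1 : SpecDirected (range pr) := by
    constructor
    · exact ⟨pr ⟨univ, isOpen_univ, mem_univ x⟩, mem_range_self _⟩
    · rintro _ ⟨U, rfl⟩ _ ⟨V, rfl⟩
      refine ⟨pr ⟨U.1 ∩ V.1, U.2.1.inter V.2.1, U.2.2, V.2.2⟩, mem_range_self _, ?_, ?_⟩
      · rw [specLE_iff_le]
        exact Or.inl ⟨rfl, fun O hO => ⟨hO.1, inter_subset_left.trans hO.2⟩⟩
      · rw [specLE_iff_le]
        exact Or.inl ⟨rfl, fun O hO => ⟨hO.1, inter_subset_right.trans hO.2⟩⟩
  have h2 : IsSpecSup (range pr) (emb x) := by
    constructor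
    · rintro _ ⟨U, rfl⟩
      rw [specLE_iff_le]
      exact Or.inl ⟨rfl, (pr U).sub⟩
    · intro b hb
      have hsub : nb x ⊆ b.F := by
        intro U hU
        have := hb (pr ⟨U, hU⟩) (mem_range_self _)
        rw [specLE_iff_le] at this
        exact Hat.F_mono this ⟨hU.1, Subset.rfl⟩
      have hb0 := hb (pr ⟨univ, isOpen_univ, mem_univ x⟩) (mem_range_self _)
      rw [specLE_iff_le] at hb0 ⊢
      rcases hb0 with h | h
      · exact Or.inl ⟨h.1, hsub⟩
      · exact Or.inr ⟨h.1, hsub⟩
  obtain ⟨_, ⟨U, rfl⟩, hUW⟩ := hdir (range pr) (emb x) h1 h2 hx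
  refine ⟨U.1, ?_, U.2.1, U.2.2⟩
  intro z hz
  refine hup _ _ ?_ hUW
  rw [specLE_iff_le]
  exact Or.inr ⟨rfl, fun V hV => ⟨hV.1, hV.2 hz⟩⟩

/-- For `U` open in a monotone convergence space `C`, the set of all `(F, e)` with `U ∈ F` is
Scott open in `Hat C`. -/
theorem isOpen_mem_F [T0Space C]
    (hC : ∀ D : Set C, SpecDirected D → ∃ s : C, IsSpecSup D s)
    {U : Set C} (hU : ScottOpen U) : IsOpen {p : Hat C | U ∈ p.F} := by
  rw [(isScottSpace_hat hC).isOpen_iff]
  constructor
  · intro p q hpq hp
    rw [specLE_iff_le] at hpq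
    exact Hat.F_mono hpq hp
  · intro D s hD hs hsU
    have hdir : DirectedOn (· ≤ ·) D := by
      intro a ha b hb
      obtain ⟨c, hc, hac, hbc⟩ := hD.2 a ha b hb
      exact ⟨c, hc, (specLE_iff_le _ _).1 hac, (specLE_iff_le _ _).1 hbc⟩
    obtain ⟨s', hs', hU'⟩ := exists_isLUB_hat hC D hD.1 hdir
    have hle : s ≤ s' := by
      rw [← specLE_iff_le]
      apply hs.2
      intro d hd
      rw [specLE_iff_le]
      exact hs'.1 hd
    obtain ⟨d, hd, hUd⟩ := hU' U hU (Hat.F_mono hle hsU)
    exact ⟨d, hd, hUd⟩

end HatSection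

/-! ### Consequences of the universal property -/

section Main

variable {X Y : Type u} [TopologicalSpace X] [TopologicalSpace Y] {i : X → Y}

/-- Taking preimages along a Scott completion is injective on open sets. -/
theorem IsScottCompletion.preimage_injective (h : IsScottCompletion i) {U V : Set Y}
    (hU : IsOpen U) (hV : IsOpen V) (hUV : i ⁻¹' U = i ⁻¹' V) : U = V := by
  have hc : Continuous (chi U ∘ i) := (continuous_chi hU).comp h.continuous
  obtain ⟨f, _, hf⟩ := h.universal Sier isScottSpace_sier (chi U ∘ i) hc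
  have h1 : chi U = f := hf _ ⟨continuous_chi hU, rfl⟩
  have h2 : chi V = f := by
    refine hf _ ⟨continuous_chi hV, ?_⟩
    funext x
    have : (i x ∈ V) = (i x ∈ U) := by
      have : x ∈ i ⁻¹' V ↔ x ∈ i ⁻¹' U := by rw [hUV]
      exact propext this
    simp only [Function.comp, chi, this]
  ext y
  have h3 : chi U y = chi V y := by rw [h1, h2]
  have h4 : (y ∈ U) = (y ∈ V) := congrArg ULift.down h3
  rw [h4]

/-- Every open set of `X` is the preimage of an open set of its Scott completion. -/
theorem IsScottCompletion.preimage_surjective (h : IsScottCompletion i) {U : Set X}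
    (hU : IsOpen U) : ∃ V : Set Y, IsOpen V ∧ i ⁻¹' V = U := by
  obtain ⟨f, ⟨hf1, hf2⟩, _⟩ := h.universal Sier isScottSpace_sier (chi U) (continuous_chi hU)
  refine ⟨f ⁻¹' {s : Sier.{u} | s.down}, isOpen_sier_true.preimage hf1, ?_⟩
  rw [← preimage_comp, hf2]
  rfl

theorem IsScottCompletion.isEmbedding [T0Space X] (h : IsScottCompletion i) :
    IsEmbedding i := by
  have hind : IsInducing i := by
    constructor
    apply le_antisymm
    · exact h.continuous.le_induced
    · intro U hU
      obtain ⟨V, hV, hVU⟩ := h.preimage_surjective hU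
      exact isOpen_induced_iff.2 ⟨V, hV, hVU⟩
  exact ⟨hind, hind.injective⟩

theorem specLE_subtype {C : Set Y} {a b : C} : SpecLE a b ↔ SpecLE (a : Y) (b : Y) := by
  unfold SpecLE
  rw [closure_subtype, image_singleton]

theorem specDirected_image {C : Set Y} {D : Set C} (hD : SpecDirected D) :
    SpecDirected (Subtype.val '' D) := by
  constructor
  · exact hD.1.image _
  · rintro _ ⟨a, ha, rfl⟩ _ ⟨b, hb, rfl⟩
    obtain ⟨c, hc, hac, hbc⟩ := hD.2 a ha b hb
    exact ⟨c, mem_image_of_mem _ hc, specLE_subtype.1 hac, specLE_subtype.1 hbc⟩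

theorem isSpecSup_subtype {C : Set Y} {D : Set C} {s : C}
    (hs : IsSpecSup (Subtype.val '' D) (s : Y)) : IsSpecSup D s := by
  constructor
  · intro d hd
    exact specLE_subtype.2 (hs.1 d (mem_image_of_mem _ hd))
  · intro b hb
    refine specLE_subtype.2 (hs.2 b ?_)
    rintro _ ⟨d, hd, rfl⟩
    exact specLE_subtype.1 (hb d hd)

theorem isSpecSup_unique [T0Space Y] {D : Set Y} {s t : Y} (hs : IsSpecSup D s)
    (ht : IsSpecSup D t) : s = t := by
  apply eq_of_nb_eq
  exact Subset.antisymm (specLE_iff_nb.1 (hs.2 t ht.1)) (specLE_iff_nb.1 (ht.2 s hs.1))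

/-- The image of a Scott completion is d-dense. -/
theorem IsScottCompletion.dDense (h : IsScottCompletion i) : DDense (range i) := by
  intro C hC hiC
  have : T0Space Y := h.target.t0
  -- `C` is a dcpo, and its directed suprema are those of `Y`
  have hCsup : ∀ D : Set C, SpecDirected D →
      ∃ s : C, IsSpecSup D s ∧ IsSpecSup (Subtype.val '' D) (s : Y) := by
    intro D hD
    have hD' := specDirected_image hD
    obtain ⟨s, hs⟩ := h.target.dcpo _ hD'
    have hsC : s ∈ C := hC _ s (by rintro _ ⟨d, _, rfl⟩; exact d.2) hD' hs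
    exact ⟨⟨s, hsC⟩, isSpecSup_subtype hs, hs⟩
  have hCd : ∀ D : Set C, SpecDirected D → ∃ s : C, IsSpecSup D s := by
    intro D hD
    obtain ⟨s, hs, _⟩ := hCsup D hD
    exact ⟨s, hs⟩
  -- traces on `C` of open sets of `Y` are Scott open in `C`
  have hCopen : ∀ V : Set Y, IsOpen V → ScottOpen (Subtype.val ⁻¹' V : Set C) := by
    intro V hV
    have hV' := (h.target.isOpen_iff V).1 hV
    constructor
    · intro x y hxy hx
      exact hV'.1 x y (specLE_subtype.1 hxy) hx
    · intro D s hD hs hsV
      obtain ⟨s', hs', hs''⟩ := hCsup D hD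
      have hss : s = s' := isSpecSup_unique hs hs'
      subst hss
      obtain ⟨_, ⟨d, hd, rfl⟩, hdV⟩ := hV'.2 _ (s : Y) (specDirected_image hD) hs'' hsV
      exact ⟨d, hd, hdV⟩
  -- the map `X → C → Hat C`
  let i' : X → C := fun x => ⟨i x, hiC (mem_range_self x)⟩
  have hi' : Continuous i' := h.continuous.subtype_mk _
  have hg : Continuous (emb ∘ i' : X → Hat C) := (continuous_emb hCd).comp hi'
  obtain ⟨f, ⟨hf1, hf2⟩, _⟩ := h.universal (Hat C) (isScottSpace_hat hCd) _ hg
  have hfx : ∀ x : X, f (i x) = emb (i' x) := fun x => congrFun hf2 x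
  -- the preimage under `f` of the open set given by `V` is `V`
  have hfV : ∀ V : Set Y, IsOpen V → ∀ y : Y, y ∈ V ↔ (Subtype.val ⁻¹' V : Set C) ∈ (f y).F := by
    intro V hV
    have hW : IsOpen {p : Hat C | (Subtype.val ⁻¹' V : Set C) ∈ p.F} :=
      isOpen_mem_F hCd (hCopen V hV)
    have : V = f ⁻¹' {p : Hat C | (Subtype.val ⁻¹' V : Set C) ∈ p.F} := by
      apply h.preimage_injective hV (hW.preimage hf1)
      ext x
      simp only [mem_preimage, mem_ofPred_eq, hfx]
      constructor
      · intro hx
        exact ⟨hV.preimage continuous_subtype_val, hx⟩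
      · intro hx
        exact hx.2
    intro y
    exact Set.ext_iff.1 this y
  rw [eq_univ_iff_forall]
  intro y
  -- some point of `X` lies below `y`
  obtain ⟨x, hx⟩ : ∃ x : X, i x ∈ closure ({y} : Set Y) := by
    by_contra hno
    push Not at hno
    have : (closure ({y} : Set Y))ᶜ = univ := by
      apply h.preimage_injective isClosed_closure.isOpen_compl isOpen_univ
      ext x
      simp [hno x]
    have hy : y ∈ (closure ({y} : Set Y))ᶜ := by
      rw [this]
      trivial
    exact hy (subset_closure (mem_singleton y))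
  -- hence `f y` is in the image of `emb`
  have hle : emb (i' x) ≤ f y := by
    rw [← hfx, ← specLE_iff_le]
    unfold SpecLE
    have := image_closure_subset_closure_image hf1 (mem_image_of_mem f hx)
    rwa [image_singleton] at this
  have hF : (f y).F = nb (f y).pt := (emb_le_iff.1 hle).1
  have hyc : y = ((f y).pt : Y) := by
    apply eq_of_nb_eq
    ext V
    constructor
    · rintro ⟨hV, hyV⟩
      rw [hfV V hV y, hF] at hyV
      exact ⟨hV, hyV.2⟩
    · rintro ⟨hV, hyV⟩
      refine ⟨hV, ?_⟩
      rw [hfV V hV y, hF]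
      exact ⟨hV.preimage continuous_subtype_val, hyV⟩
  rw [hyc]
  exact (f y).pt.2

end Main

/-- **Every Scott completion of a `T0` space is a D-completion**: it is a topological embedding
into a monotone convergence space, with d-dense image. -/
theorem result {X Y : Type u} [TopologicalSpace X] [TopologicalSpace Y] [T0Space X]
    (i : X → Y) (h : IsScottCompletion i) : IsDCompletion i where
  target :=
    { t0 := h.target.t0
      dcpo := h.target.dcpo
      scottOpen := fun U hU => (h.target.isOpen_iff U).1 hU }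
  isEmbedding := h.isEmbedding
  dDense := h.dDense

end Pool.Agent.Results.MP_50fe75_gt.ScottCompletionIsD
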